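import Mathlib
import Pool.Agent.Q147.TowerSpace

/-!
# MP_dfc365_gt : under CH, `C_p(X)` may be separable and Fréchet–Urysohn but not hereditarily
separable
-/

namespace Pool.Agent.Results.MP_dfc365_gt.ConsistentExample

open Set Filter Topology TopologicalSpace

/-- Under the continuum hypothesis there is a Tychonoff space `X` such that `C_p(X)` (the set of
continuous real functions on `X` with the topology inherited from the product `ℝ^X`) is separable
and Fréchet–Urysohn, but some subspace of `C_p(X)` is not separable. -/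
theorem result (CH : Cardinal.continuum.{0} = Cardinal.aleph 1) :
    ∃ (X : Type) (_ : TopologicalSpace X), T35Space X ∧
      SeparableSpace {f : X → ℝ // Continuous f} ∧
      (∀ (A : Set {f : X → ℝ // Continuous f}) (y : {f : X → ℝ // Continuous f}),
        y ∈ closure A → ∃ a : ℕ → {f : X → ℝ // Continuous f},
          (∀ n, a n ∈ A) ∧ Tendsto a atTop (𝓝 y)) ∧
      ∃ D : Set {f : X → ℝ // Continuous f}, ¬ SeparableSpace D := by
  obtain ⟨I, hlo, hI⟩ := Pool.Agent.Q147.TowerSpace.exists_enum CH
  obtain ⟨x, hx⟩ := Pool.Agent.Q147.TowerSpace.exists_tower' hI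
  exact ⟨Pool.Agent.Q147.TowerSpace.Sp x, inferInstance,
    Pool.Agent.Q147.TowerSpace.t35 hx.inf hx.inj,
    Pool.Agent.Q147.TowerSpace.separable hx.inf hx.inj,
    Pool.Agent.Q147.TowerSpace.frechet hI hx,
    Pool.Agent.Q147.TowerSpace.not_hs hx.inf hx.inj hI.unc⟩

end Pool.Agent.Results.MP_dfc365_gt.ConsistentExample
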